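import Pool.Agent.L7h9.UP.Cor
import Pool.Agent.L7h9.TS.Tori
set_option autoImplicit false

/-!
Tori in the hypersurfaces `W(z) = λ` for large `λ`, and the regulators of all classes at two places.
-/

namespace Pool.Agent.L7h9.UP

open Pool.Agent.TH826.MK

open Pool.Agent.N65.TL

open Pool.Agent.L7h9.SU

open Pool.Agent.L7h9.TS

open Pool.Agent.L7h9.LT (lval lder)

section big

variable {K : Type*} [Field K] [CharZero K] {s : ℕ} {P : Marked K s}

/-- the point -/
noncomputable def pt0 (σ : K →+* ℂ) : Torus K 0 where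
  e _ := σ
  smooth _ := contDiff_const
  periodic _ _ := rfl

theorem pairing_two (g : Fin (0 + 1) → (Fin 0 → ℝ) → ℂ) (h : ∀ l θ, g l θ = 2) :
    pairing g = Real.log 2 := by
  have h1 : ∀ y, integrand g y = Real.log 2 := by
    intro y
    unfold integrand
    have h2 : (Matrix.of fun l => grow (g l) y).det = grow (g 0) y 0 := Matrix.det_fin_one _
    rw [pow_zero, one_mul, h2, grow_zero, h, Complex.ofReal_re, Complex.norm_ofNat]
  unfold pairing
  simp only [h1]
  rw [MeasureTheory.setIntegral_const, MeasureTheory.measureReal_def, Real.volume_Icc_pi_toReal]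
  · simp
  · exact zero_le_one

theorem exists_castE {A : Type*} [CommRing A] {a b : ℕ} (h : a = b) (T : Torus A a) :
    ∃ T' : Torus A b, (∀ θ, ∃ θ', T'.e θ = T.e θ') ∧
      ∀ c : Fin (a + 1) → Aˣ, T'.reg (symb fun l : Fin (b + 1) => c (Fin.cast (by omega) l)) =
        T.reg (symb c) := by
  subst h
  exact ⟨T, fun θ => ⟨θ, rfl⟩, fun c => rfl⟩

theorem exists_big (σ : K →+* ℂ) (hP : P.Admissible) :
    ∃ D : ℝ, D ≠ 0 ∧ ∀ ε : ℝ, 0 < ε →
    ∃ Λ : ℝ, 1 < Λ ∧ ∀ lam : Kˣ, Λ ≤ ‖σ (lam : K)‖ → ∃ Γ : Torus (UR P.W (lam : K)) s,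
      (∀ θ x, Γ.e θ (ucst P.W (lam : K) x) = σ x) ∧
      |Γ.reg (symb (uz P.W (lam : K))) / Real.log ‖σ (lam : K)‖ - D| ≤ ε ∧
      ∀ k, |Γ.reg (symb (uw P lam k)) / Real.log ‖σ (lam : K)‖| ≤ ε := by
  classical
  obtain ⟨al, v, hv, hpos, hmax, hal⟩ := exists_vertex' hP.interior
  obtain ⟨i0, hi0⟩ : ∃ i0, v i0 ≠ 0 := by
    by_contra hcon
    push Not at hcon
    have h1 : dot al v = 0 := Finset.sum_eq_zero fun i _ => by rw [hcon i, mul_zero]
    omega
  have hk0pos : 0 < (dot al v).toNat := by omega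
  have hne : ∀ j i, P.c j i ≠ 0 := fun j i h0 => by
    obtain ⟨m, hm, h1⟩ := hP.root j i
    rw [h0, zero_pow hm] at h1
    exact zero_ne_one h1
  have hlog2 : Real.log 2 ≠ 0 := (Real.log_pos (by norm_num)).ne'
  set D1 : ℝ := SU.cst 0 s (dot al v).toNat * (zmat al v i0).det * Real.log 2 with hD1
  have hD10 : D1 ≠ 0 :=
    mul_ne_zero (mul_ne_zero (cst_ne_zero hk0pos) (det_zmat hpos hi0)) hlog2
  set el : Fin 0 → Kˣ := fun i => i.elim0 with hel
  have hpt : ∀ (θ : Fin 0 → ℝ) (x : K), (pt0 σ).e θ ((RingHom.id K) x) = σ x := fun _ _ => rfl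
  have hbase : (pt0 σ).reg (byTwo (RingHom.id K) (symb el)) = Real.log 2 := by
    rw [reg_byTwo hpt]
    refine pairing_two _ fun l θ => ?_
    refine Fin.addCases (m := 0) (n := 1) (fun i => i.elim0) (fun i => ?_) l
    exact congrFun (Fin.append_right (m := 0) (n := 1) _ _ i) θ
  have hdim : 0 + s = s := Nat.zero_add s
  refine ⟨D1, hD10, fun ε hε => ?_⟩
  obtain ⟨Λ, hΛ1, hΛ⟩ := half (W := P.W) σ (RingHom.id K) 1 (pt0 σ) hpt hv hpos hmax hal i0
    (κ := Unit) (fun _ => el) el (fun (k : ∀ j, Fin (P.r j)) j => P.c j (k j).succ)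
    (fun _ j => P.c j 0) (fun _ _ => hne _ _) (fun _ _ => hne _ _) hε
  refine ⟨Λ, hΛ1, fun lam hl => ?_⟩
  have hg : (RingHom.id K) (lam : K) * ((1 : Kˣ) : K) = lam := by
    rw [RingHom.id_apply, Units.val_one, mul_one]
  have h := hΛ lam hl
  rw [hg] at h
  obtain ⟨Γ, h1, -, h3, h4⟩ := h
  obtain ⟨T, hT1, hT2⟩ := exists_castE hdim Γ
  have hcat : ∀ z : Fin (s + 1) → (SRing (RingHom.id K) P.W (lam : K))ˣ, (fun l : Fin (s + 1) =>
      Fin.append (m := 0) (n := s + 1) (fun i => Units.map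
        (sbase (RingHom.id K) P.W (lam : K) : K →* SRing (RingHom.id K) P.W (lam : K)) (el i)) z
        (Fin.cast (by omega) l)) = z := by
    intro z
    funext l
    have e1 : (Fin.cast (by omega) l : Fin (0 + (s + 1))) = Fin.natAdd 0 l := by
      apply Fin.ext
      simp
    rw [e1]
    exact Fin.append_right (m := 0) (n := s + 1) _ _ l
  refine ⟨T, fun θ x => ?_, ?_, fun k => ?_⟩
  · obtain ⟨θ', hθ'⟩ := hT1 θ
    rw [hθ']
    exact h1 θ' x
  · have h5 := h3 ()
    have h6 := hT2 (Fin.append (m := 0) (n := s + 1) (fun i => Units.map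
        (sbase (RingHom.id K) P.W (lam : K) : K →* SRing (RingHom.id K) P.W (lam : K)) (el i))
        (sz (RingHom.id K) P.W (lam : K)))
    rw [hcat] at h6
    rw [← h6, hbase] at h5
    exact h5
  · set w' : Fin (s + 1) → (SRing (RingHom.id K) P.W (lam : K))ˣ := uw P lam k with hw'
    have h5 := h4 k w' fun j => uw_mul P lam k j
    have h6 := hT2 (Fin.append (m := 0) (n := s + 1) (fun i => Units.map
        (sbase (RingHom.id K) P.W (lam : K) : K →* SRing (RingHom.id K) P.W (lam : K)) (el i))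
        w')
    rw [hcat w'] at h6
    rw [← h6] at h5
    exact h5

/-- The tori at both places. -/
theorem exists_two (σ τ : K →+* ℂ) (hP : P.Admissible) :
    ∃ C : ℝ, 1 < C ∧ ∀ lam : Kˣ, C ≤ ‖σ (lam : K)‖ → C ≤ ‖τ (lam⁻¹ : Kˣ)‖ →
      ∃ Γ : Iu P → Torus (UR P.W (lam : K)) s,
        (∀ t θ x, (Γ t).e θ (ucst P.W (lam : K) x) = (t.elim σ fun _ => τ) x) ∧
        (Matrix.of fun t k => (Γ t).reg (ucls P lam k)).det ≠ 0 := by
  classical
  obtain ⟨D1, hD1, hs1⟩ := exists_big (P := P) σ hP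
  choose D2 hD2 hs2 using fun c => exists_corner (P := P) τ hP c
  set M : Matrix (Iu P) (Iu P) ℝ := Matrix.diagonal fun t => t.elim D1 D2 with hM
  have hMdet : M.det ≠ 0 := by
    rw [hM, Matrix.det_diagonal]
    refine Finset.prod_ne_zero_iff.2 fun t _ => ?_
    cases t with
    | none => exact hD1
    | some t => exact hD2 t
  obtain ⟨δ, hδ, hnear⟩ := Pool.Agent.TH826.SX.det_ne_zero_near _ hMdet
  obtain ⟨C1, hC1, h1⟩ := hs1 (δ / 2) (by linarith)
  choose C2 hC2 h2 using fun c => hs2 c (δ / 2) (by linarith)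
  obtain ⟨C3, hC30, hC3⟩ := exists_upper C2
  refine ⟨C1 + C3, by linarith, fun lam hl1 hl2 => ?_⟩
  obtain ⟨Γ1, a1, a2, a3⟩ := h1 lam (by linarith)
  choose Γ2 b1 b2 b3 using fun c => h2 c lam ((hC3 c).trans (by linarith))
  set Γ : Iu P → Torus (UR P.W (lam : K)) s := fun t => t.elim Γ1 Γ2 with hΓ
  refine ⟨Γ, fun t θ x => ?_, ?_⟩
  · cases t with
    | none => exact a1 θ x
    | some t => exact b1 t θ x
  set sc : Iu P → ℝ := fun t => t.elim (Real.log ‖σ (lam : K)‖)⁻¹
    (fun _ => (-Real.log ‖τ (lam⁻¹ : Kˣ)‖)⁻¹) with hsc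
  have h5 := hnear (Matrix.of fun t k => sc t * (Γ t).reg (ucls P lam k)) (fun t k => by
    rw [Matrix.of_apply]
    cases t with
    | none =>
      cases k with
      | none =>
        have e : sc none * (Γ none).reg (ucls P lam none) =
            Γ1.reg (symb (uz P.W (lam : K))) / Real.log ‖σ (lam : K)‖ := by
          rw [div_eq_inv_mul]
          rfl
        rw [e, hM, Matrix.diagonal_apply_eq]
        exact lt_of_le_of_lt a2 (by linarith)
      | some k =>
        have e : sc none * (Γ none).reg (ucls P lam (some k)) =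
            Γ1.reg (symb (uw P lam k)) / Real.log ‖σ (lam : K)‖ := by
          rw [div_eq_inv_mul]
          rfl
        rw [e, hM, Matrix.diagonal_apply_ne _ (by simp), sub_zero]
        exact lt_of_le_of_lt (a3 k) (by linarith)
    | some t =>
      cases k with
      | none =>
        have e : sc (some t) * (Γ (some t)).reg (ucls P lam none) =
            (Γ2 t).reg (symb (uz P.W (lam : K))) / (-Real.log ‖τ (lam⁻¹ : Kˣ)‖) := by
          rw [div_eq_inv_mul]
          rfl
        rw [e, hM, Matrix.diagonal_apply_ne _ (by simp), sub_zero]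
        exact lt_of_le_of_lt (b3 t) (by linarith)
      | some k =>
        have e : sc (some t) * (Γ (some t)).reg (ucls P lam (some k)) =
            (Γ2 t).reg (symb (uw P lam k)) / (-Real.log ‖τ (lam⁻¹ : Kˣ)‖) := by
          rw [div_eq_inv_mul]
          rfl
        have e2 : M (some t) (some k) = (if k = t then 1 else 0) * D2 t := by
          by_cases h : k = t
          · subst h
            rw [hM, Matrix.diagonal_apply_eq, if_pos rfl, one_mul]
            rfl
          · rw [hM, Matrix.diagonal_apply_ne _ (by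
              intro h'
              exact h (Option.some_injective _ h').symm), if_neg h, zero_mul]
        rw [e, e2]
        exact lt_of_le_of_lt (b2 t k) (by linarith))
  intro h0
  apply h5
  have h7 : (Matrix.of fun t k => sc t * (Γ t).reg (ucls P lam k)) = Matrix.of fun t k =>
      sc t * (Matrix.of fun t k => (Γ t).reg (ucls P lam k)) t k := rfl
  rw [h7, Matrix.det_mul_column, h0, mul_zero]

end big

end Pool.Agent.L7h9.UP
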