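import Pool.Agent.L7h9.UP.Pts
import Pool.Agent.Y797.TW.Tor
import Pool.Agent.L7h9.TS.BaseT
set_option autoImplicit false

/-!
Tori near the corners `z_j = c_{j,i}` in the hypersurfaces `W(z) = λ` for small `λ`.
-/

namespace Pool.Agent.L7h9.UP

open Pool.Agent.TH826.MK

open Pool.Agent.N65.TL

open Pool.Agent.L7h9.SU

open Pool.Agent.L7h9.TS

open Pool.Agent.L7h9.LT (lval)

open Pool.Agent.TH577.UA (mmon mrow yrow det_yrow)

open Pool.Agent.TH826.SX (pairing_close)

open Pool.Agent.Y797.TW (Tower fct exists_chart exists_rapid nex ex mch hh wcc wcc_zero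
  contDiff_wcc prod_wcc contDiff_hh eval_mch hh_zero det_orders IsLow)

section torus

variable {K : Type*} [Field K] {s d : ℕ} {W : LP K (s + 1)} {lam : K} {σ : K →+* ℂ}
  {Z : Fin (s + 1) → (Fin d → ℝ) → ℂ}

theorem upt_congr {S : Type*} [CommRing S] {c : K →+* S} {x x' : Fin (s + 1) → Sˣ}
    (h : lev c x W = c lam) (h' : lev c x' W = c lam) (e : x = x') :
    upt c x h = upt c x' h' := by
  subst e
  rfl

/-- the torus in the hypersurface -/
noncomputable def uT (hZ : ∀ i, Good (Z i)) (hZp : ∀ i, Per (Z i))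
    (h : ∀ θ, lev σ (uval hZ θ) W = σ lam) : Torus (UR W lam) d where
  e θ := upt σ (uval hZ θ) (h θ)
  smooth f := by
    obtain ⟨a, ha⟩ := smk_surjective (RingHom.id K) W lam f
    have e1 : (fun θ => upt σ (uval hZ θ) (h θ) f) = fun θ => lval σ a (fun i => Z i θ) := by
      funext θ
      rw [← ha]
      exact (sev_smk _ _ _ _).trans (lev_uval hZ θ σ)
    rw [e1]
    exact contDiff_lval hZ a
  periodic θ i := by
    refine upt_congr _ _ ?_
    funext j
    exact Units.ext (hZp j θ i)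

end torus

section low

theorem IsLow.coeff_zero {N : ℕ} {F : MvPolynomial (Fin N) ℂ} {α : Fin N →₀ ℕ} (h : IsLow F α)
    (h0 : α ≠ 0) : MvPolynomial.coeff 0 F = 0 := by
  by_contra hne
  obtain ⟨i, -, hi⟩ := h.2 0 (MvPolynomial.mem_support_iff.2 hne) h0.symm
  exact absurd hi (Nat.not_lt_zero _)

theorem mch_zero {N : ℕ} (m : Fin N → ℕ) : mch m (0 : Fin N → ℂ) = 0 := by
  funext j
  unfold mch
  refine Finset.prod_eq_zero (Finset.mem_univ j) ?_
  unfold ex
  rw [if_pos rfl, pow_one, Pi.zero_apply]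

end low

section corner

variable {K : Type*} [Field K] {s : ℕ} {P : Marked K s}

/-- the tower -/
noncomputable def tw (P : Marked K s) : Tower K s where
  r := P.r
  phi j i := MvPolynomial.C (P.c j i)
  g := tpoly P.G

/-- the factors of the equation -/
noncomputable def fcP (P : Marked K s) :
    Option ((j : Fin (s + 1)) × Fin (P.r j + 1)) → MvPolynomial (Fin (s + 1)) K
  | none => tpoly P.G
  | some e => MvPolynomial.X e.1 - MvPolynomial.C (P.c e.1 e.2)

theorem fcP_eq (P : Marked K s) (e : Option ((j : Fin (s + 1)) × Fin (P.r j + 1))) :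
    fcP P e = fct (tw P) e := by
  cases e <;> rfl

theorem exists_coeff (hP : P.Admissible) : ∃ m0, P.G.coeff m0 ≠ 0 := by
  obtain ⟨m0, hm0, -⟩ := hP.interior (fun _ => 1) (fun h => by
    have := congrFun h 0
    simp at this)
  by_contra hcon
  push Not at hcon
  have h1 : P.G = 0 := by
    ext m
    rw [hcon m]
    rfl
  apply hm0
  unfold Marked.W
  rw [h1, zero_mul]
  rfl

theorem tw_graphs (hP : P.Admissible) : (tw P).Graphs := by
  obtain ⟨m0, hm0⟩ := exists_coeff hP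
  refine ⟨fun j i l hl => ?_, fun j i i' h => ?_, tpoly_ne_zero hm0⟩
  · simp only [tw, MvPolynomial.vars_C] at hl
    exact absurd hl (Finset.notMem_empty _)
  · exact hP.inj j (MvPolynomial.C_injective _ _ h)

theorem lval_W (σ : K →+* ℂ) {d : ℕ} {Z : Fin (s + 1) → (Fin d → ℝ) → ℂ} (hZ : ∀ i, Good (Z i))
    (θ : Fin d → ℝ) : lev σ (uval hZ θ) P.W =
      lval σ P.G (fun i => Z i θ) * ∏ j, ∏ i, (Z j θ - σ (P.c j i)) := by
  unfold Marked.W
  rw [map_mul, lev_uval, map_prod]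
  congr 1
  refine Finset.prod_congr rfl fun j _ => ?_
  rw [map_prod]
  exact Finset.prod_congr rfl fun i _ => lev_lin _ _ _ _

theorem exists_corner (σ : K →+* ℂ) (hP : P.Admissible) (c : ∀ j, Fin (P.r j)) :
    ∃ D : ℝ, D ≠ 0 ∧ ∀ ε : ℝ, 0 < ε →
    ∃ Λ : ℝ, 1 < Λ ∧ ∀ lam : Kˣ, Λ ≤ ‖σ (lam⁻¹ : Kˣ)‖ → ∃ Γ : Torus (UR P.W (lam : K)) s,
      (∀ θ x, Γ.e θ (ucst P.W (lam : K) x) = σ x) ∧
      (∀ k, |Γ.reg (symb (uw P lam k)) / (-Real.log ‖σ (lam⁻¹ : Kˣ)‖) -
          (if k = c then 1 else 0) * D| ≤ ε) ∧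
      |Γ.reg (symb (uz P.W (lam : K))) / (-Real.log ‖σ (lam⁻¹ : Kˣ)‖)| ≤ ε := by
  classical
  obtain ⟨x, al, hal, hal1, hal2⟩ : ∃ (x : Fin (s + 1) → MvPolynomial (Fin (s + 1)) ℂ)
      (al : Option ((j : Fin (s + 1)) × Fin (P.r j + 1)) → Fin (s + 1) →₀ ℕ),
      (∀ e, IsLow (MvPolynomial.bind₁ x (MvPolynomial.map σ (fcP P e))) (al e)) ∧
      (∀ j, al (some ⟨j, (c j).succ⟩) = Finsupp.single j 1) ∧
      ∀ j (i : Fin (P.r j + 1)), i ≠ (c j).succ → ∀ l, l ≤ j → al (some ⟨j, i⟩) l = 0 := by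
    obtain ⟨x, al, hal, h⟩ := exists_chart (tw P) σ (tw_graphs hP) fun j => (c j).succ
    exact ⟨x, al, fun e => by
      rw [fcP_eq]
      exact hal e, h⟩
  set D0 : ℕ := ∑ e, ∑ j, al e j with hD0
  have hD : ∀ e j, al e j ≤ D0 := fun e j =>
    (Finset.single_le_sum (f := fun j => al e j) (fun _ _ => Nat.zero_le _)
      (Finset.mem_univ j)).trans
    (Finset.single_le_sum (f := fun e => ∑ j, al e j) (fun _ _ => Nat.zero_le _)
      (Finset.mem_univ e))
  obtain ⟨m, hm⟩ := exists_rapid D0 (s + 1)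
  set μ : Option ((j : Fin (s + 1)) × Fin (P.r j + 1)) → Fin (s + 1) → ℕ :=
    fun e => nex m fun i => al e i with hμdef
  set q : ℕ := ∑ e, μ e 0 with hq
  set N : Fin s → ℕ := fun k => ∑ e, μ e k.succ with hN
  have hq0 : 0 < q := by
    refine lt_of_lt_of_le one_pos (le_trans ?_ (Finset.single_le_sum (f := fun e => μ e 0)
      (fun _ _ => Nat.zero_le _) (Finset.mem_univ (some ⟨0, (c 0).succ⟩))))
    simp only [hμdef]
    rw [hal1 0]
    unfold nex
    refine le_trans ?_ (Finset.single_le_sum (f := fun j =>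
      (Finsupp.single (0 : Fin (s + 1)) 1) j * ex m j 0) (fun _ _ => Nat.zero_le _)
      (Finset.mem_univ 0))
    simp [ex]
  -- the coordinates
  have hc0 : ∀ j i, σ (P.c j i) ≠ 0 := fun j i h0 => by
    obtain ⟨k, hk, h1⟩ := hP.root j i
    rw [map_eq_zero] at h0
    rw [h0, zero_pow hk] at h1
    exact zero_ne_one h1
  set ψ : Fin (s + 1) → (Fin s → ℂ) × ℂ → ℂ := fun j u => MvPolynomial.eval (mch m (wcc u)) (x j)
    with hψdef
  have hfac : ∀ j (i : Fin (P.r j + 1)),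
      MvPolynomial.bind₁ x (MvPolynomial.map σ (fcP P (some ⟨j, i⟩))) =
      x j - MvPolynomial.C (σ (P.c j i)) := by
    intro j i
    have h1 : fcP P (some ⟨j, i⟩) = MvPolynomial.X j - MvPolynomial.C (P.c j i) := rfl
    rw [h1, map_sub, map_sub, MvPolynomial.map_X, MvPolynomial.bind₁_X_right,
      MvPolynomial.map_C, MvPolynomial.bind₁_C_right]
  have hx0 : ∀ j, MvPolynomial.eval 0 (x j) = σ (P.c j (c j).succ) := by
    intro j
    have h2 := hal (some ⟨j, (c j).succ⟩)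
    rw [hfac, hal1 j] at h2
    have h3 := IsLow.coeff_zero h2 (by
      rw [Ne, Finsupp.single_eq_zero]
      exact one_ne_zero)
    rw [← MvPolynomial.constantCoeff_eq, map_sub, MvPolynomial.constantCoeff_C] at h3
    have h4 : MvPolynomial.eval 0 (x j) = MvPolynomial.constantCoeff (x j) := by
      exact DFunLike.congr_fun MvPolynomial.eval_zero (x j)
    rw [h4]
    exact sub_eq_zero.1 h3
  have hψ0 : ∀ j, ψ j 0 ≠ 0 := by
    intro j
    simp only [hψdef]
    rw [wcc_zero, mch_zero, hx0]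
    exact hc0 _ _
  have hmch : ContDiff ℂ 2 fun u : (Fin s → ℂ) × ℂ => mch m (wcc u) := by
    refine contDiff_pi.2 fun j => ?_
    unfold mch
    exact contDiff_prod fun l _ => (contDiff_pi.1 contDiff_wcc l).pow _
  have hpc : ∀ p : MvPolynomial (Fin (s + 1)) ℂ, ContDiff ℂ 2
      fun u : (Fin s → ℂ) × ℂ => MvPolynomial.eval (mch m (wcc u)) p := by
    intro p
    induction p using MvPolynomial.induction_on with
    | C c => simpa using contDiff_const
    | add p q hp hq => simpa using hp.add hq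
    | mul_X p k hp => simpa using hp.mul (contDiff_pi.1 hmch k)
  have hψc : ∀ j, ContDiff ℂ 2 (ψ j) := fun j => hpc (x j)
  set M : Fin (s + 1) → ℕ := fun j => (Mx P.G j).toNat with hMdef
  set un : Option ((j : Fin (s + 1)) × Fin (P.r j + 1)) → (Fin s → ℂ) × ℂ → ℂ := fun e u =>
    e.elim ((∏ j, ψ j u ^ M j)⁻¹) fun _ => 1 with hun
  have hunc : ∀ e, ContDiffAt ℂ 2 (un e) 0 := by
    intro e
    cases e with
    | none =>
      have h1 : ContDiff ℂ 2 fun u => ∏ j, ψ j u ^ M j := contDiff_prod fun j _ => (hψc j).pow _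
      exact h1.contDiffAt.inv (Finset.prod_ne_zero_iff.2 fun j _ => pow_ne_zero _ (hψ0 j))
    | some e => exact contDiffAt_const
  have hun0 : ∀ e, un e 0 ≠ 0 := by
    intro e
    cases e with
    | none => exact inv_ne_zero (Finset.prod_ne_zero_iff.2 fun j _ => pow_ne_zero _ (hψ0 j))
    | some e => exact one_ne_zero
  refine ⟨(2 * Real.pi) ^ s * (Matrix.of (yrow q N)).det, mul_ne_zero
    (pow_ne_zero _ (by have := Real.pi_pos; positivity)) (det_yrow hq0 N), fun ε hε => ?_⟩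
  choose δ hδ hclose using fun k : ∀ j, Fin (P.r j) =>
    pairing_close (Matrix.of fun l j => mrow q N (μ (some ⟨l, (k l).succ⟩)) j -
      mrow q N (μ (some ⟨l, 0⟩)) j) hε
  obtain ⟨δ', hδ', hclose'⟩ := pairing_close (0 : Matrix (Fin (s + 1)) (Fin (s + 1)) ℝ) hε
  obtain ⟨k0, -, hk0⟩ := Finset.exists_min_image Finset.univ δ ⟨c, Finset.mem_univ _⟩
  obtain ⟨δ0, hδ0pos, hδ01, hδ02⟩ : ∃ δ0 : ℝ, 0 < δ0 ∧ δ0 ≤ δ k0 / 3 ∧ δ0 < δ' :=
    ⟨min (δ k0 / 3) (δ' / 2), lt_min (by linarith [hδ k0]) (by linarith), min_le_left _ _,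
      (min_le_right _ _).trans_lt (by linarith)⟩
  have hδle : ∀ k, 2 * δ0 < δ k := by
    intro k
    have h1 := hk0 k (Finset.mem_univ k)
    have h2 := hδ k0
    linarith
  obtain ⟨η0, hη0, hX⟩ := exists_points (q := q) (N := N)
    (H := fun e u => MvPolynomial.eval (mch m (wcc u))
      (MvPolynomial.bind₁ x (MvPolynomial.map σ (fcP P e))) * un e u)
    (h := fun e u => hh m (MvPolynomial.bind₁ x (MvPolynomial.map σ (fcP P e))) (al e) (wcc u) *
      un e u)
    (μ := μ)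
    (fun e u => by
      rw [eval_mch hm (hal e) (hD e), prod_wcc]
      exact mul_assoc _ _ _)
    (fun e => (((contDiff_hh m _ _).comp contDiff_wcc).contDiffAt).mul (hunc e))
    (fun e => by
      rw [wcc_zero]
      exact mul_ne_zero (hh_zero hm (hal e) (hD e)) (hun0 e))
    rfl hq0 (fun k => rfl) (ψ := ψ) (fun j => (hψc j).contDiffAt) hψ0 hδ0pos
  have hinvpos : 0 < 1 / η0 := by positivity
  refine ⟨1 / η0 + 2, by linarith, fun lam hlam => ?_⟩
  have hln : 0 < ‖σ (lam⁻¹ : Kˣ)‖ := by linarith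
  have hl0 : σ (lam : K) ≠ 0 := by
    rw [map_ne_zero]
    exact lam.ne_zero
  have hinv : (σ (lam⁻¹ : Kˣ) : ℂ) = (σ (lam : K))⁻¹ := by
    rw [Units.val_inv_eq_inv_val, map_inv₀]
  have hη : ‖σ (lam : K)‖ < η0 := by
    rw [hinv, norm_inv] at hlam hln
    have h1 : 1 / η0 < ‖σ (lam : K)‖⁻¹ := by linarith
    rw [one_div] at h1
    exact (inv_lt_inv₀ hη0 (norm_pos_iff.2 hl0)).1 h1
  obtain ⟨hlog, U, hUc, hUp, hUe, hUg, hUest, hUψ⟩ := hX _ hl0 hη
  have hlogeq : -Real.log ‖σ (lam⁻¹ : Kˣ)‖ = Real.log ‖σ (lam : K)‖ := by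
    rw [hinv, norm_inv, Real.log_inv, neg_neg]
  rw [hlogeq]
  set t : ℝ := Real.log ‖σ (lam : K)‖ with ht
  have ht0 : t ≠ 0 := hlog.ne
  set Z : Fin (s + 1) → (Fin s → ℝ) → ℂ := fun j θ => ψ j (U θ) with hZdef
  have hZ : ∀ j, Good (Z j) := fun j => (hUψ j).1
  have hZp : ∀ j, Per (Z j) := fun j θ i => by simp only [hZdef, hUp]
  have hHs : ∀ j i θ, MvPolynomial.eval (mch m (wcc (U θ)))
      (MvPolynomial.bind₁ x (MvPolynomial.map σ (fcP P (some ⟨j, i⟩)))) * un (some ⟨j, i⟩) (U θ) =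
      Z j θ - σ (P.c j i) := by
    intro j i θ
    have h2 : un (some ⟨j, i⟩) (U θ) = 1 := rfl
    rw [hfac, h2, mul_one, map_sub, MvPolynomial.eval_C]
  have hHn : ∀ θ, MvPolynomial.eval (mch m (wcc (U θ)))
      (MvPolynomial.bind₁ x (MvPolynomial.map σ (fcP P none))) * un none (U θ) =
      lval σ P.G fun j => Z j θ := by
    intro θ
    have h1 : MvPolynomial.eval (mch m (wcc (U θ)))
        (MvPolynomial.bind₁ x (MvPolynomial.map σ (fcP P none))) =
        MvPolynomial.eval₂ σ (fun j => Z j θ) (tpoly P.G) := by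
      unfold MvPolynomial.eval
      rw [MvPolynomial.eval₂Hom_bind₁]
      show MvPolynomial.eval₂ (RingHom.id ℂ) _ (MvPolynomial.map σ (tpoly P.G)) = _
      rw [MvPolynomial.eval₂_map, RingHom.id_comp]
      rfl
    have h2 : un none (U θ) = (∏ j, Z j θ ^ M j)⁻¹ := rfl
    have h3 : ∏ j, Z j θ ^ Mx P.G j = ∏ j, Z j θ ^ M j := by
      refine Finset.prod_congr rfl fun j _ => ?_
      have h4 : 0 ≤ Mx P.G j := Finset.sum_nonneg fun _ _ => abs_nonneg _
      rw [← zpow_natCast, hMdef]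
      congr 1
      exact (Int.toNat_of_nonneg h4).symm
    rw [h1, eval_tpoly σ (fun j => (hZ j).ne_zero θ), h2, h3, mul_right_comm, mul_inv_cancel₀
      (Finset.prod_ne_zero_iff.2 fun j _ => pow_ne_zero _ ((hZ j).ne_zero θ)), one_mul]
  have heq : ∀ θ, lev σ (uval hZ θ) P.W = σ (lam : K) := by
    intro θ
    have h1 := hUe θ
    rw [Fintype.prod_option, Fintype.prod_sigma, hHn] at h1
    simp only [hHs] at h1
    rw [lval_W, h1]
  have hgoodL : ∀ j i, Good fun θ => Z j θ - σ (P.c j i) := fun j i => by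
    have h1 := hUg (some ⟨j, i⟩)
    simp only [hHs] at h1
    exact h1
  have hest : ∀ j i θ, |Real.log ‖Z j θ - σ (P.c j i)‖ / t -
      mrow q N (μ (some ⟨j, i⟩)) 0| ≤ δ0 ∧
      ∀ l, ‖lw (fun θ => Z j θ - σ (P.c j i)) l θ - 2 * Real.pi * Complex.I *
        mrow q N (μ (some ⟨j, i⟩)) l.succ‖ ≤ δ0 := fun j i θ => by
    have h1 := hUest (some ⟨j, i⟩) θ
    simp only [hHs] at h1
    exact h1
  set Γ : Torus (UR P.W (lam : K)) s := uT hZ hZp heq with hΓ
  have hΓc : ∀ θ x, Γ.e θ (ucst P.W (lam : K) x) = σ x := fun θ x => upt_cst σ _ (heq θ) x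
  have hΓz : ∀ θ j, Γ.e θ (uz P.W (lam : K) j : UR P.W (lam : K)) = Z j θ := fun θ j =>
    upt_uz σ _ (heq θ) j
  refine ⟨Γ, hΓc, fun k => ?_, ?_⟩
  · have hfin : (if k = c then 1 else 0) * ((2 * Real.pi) ^ s * (Matrix.of (yrow q N)).det) =
        (2 * Real.pi) ^ s * (Matrix.of fun l j => mrow q N (μ (some ⟨l, (k l).succ⟩)) j -
          mrow q N (μ (some ⟨l, 0⟩)) j).det := by
      rw [show (Matrix.of fun l j => mrow q N (μ (some ⟨l, (k l).succ⟩)) j -
          mrow q N (μ (some ⟨l, 0⟩)) j).det = (if k = c then 1 else 0) *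
          (Matrix.of (yrow q N)).det from det_orders q N m al c hal1 hal2 k]
      ring
    rw [Torus.reg_symb, hfin]
    have hgoodE : ∀ l, Good (Γ.fn (uw P lam k l : UR P.W (lam : K))) := fun l => Γ.good _
    have hmul : ∀ l, (fun θ => Γ.fn (uw P lam k l : UR P.W (lam : K)) θ *
        (Z l θ - σ (P.c l 0))) = fun θ => Z l θ - σ (P.c l (k l).succ) := by
      intro l
      funext θ
      have h1 := congrArg (Γ.e θ) (uw_mul P lam k l)
      rw [map_mul, map_sub, map_sub, hΓz, hΓc, hΓc] at h1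
      exact h1
    refine hclose k _ _ ht0 hgoodE (fun l θ => ?_) (fun l j θ => ?_)
    · change |Real.log ‖Γ.fn (uw P lam k l : UR P.W (lam : K)) θ‖ / t -
        (mrow q N (μ (some ⟨l, (k l).succ⟩)) 0 - mrow q N (μ (some ⟨l, 0⟩)) 0)| < δ k
      have h1 := (hest l (k l).succ θ).1
      have h2 := (hest l 0 θ).1
      have h3 : Real.log ‖Γ.fn (uw P lam k l : UR P.W (lam : K)) θ * (Z l θ - σ (P.c l 0))‖ =
          Real.log ‖Z l θ - σ (P.c l (k l).succ)‖ :=
        congrArg (fun z : ℂ => Real.log ‖z‖) (congrFun (hmul l) θ)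
      rw [norm_mul, Real.log_mul (norm_ne_zero_iff.2 ((hgoodE l).ne_zero θ))
        (norm_ne_zero_iff.2 ((hgoodL _ _).ne_zero θ))] at h3
      have h4 : Real.log ‖Γ.fn (uw P lam k l : UR P.W (lam : K)) θ‖ =
          Real.log ‖Z l θ - σ (P.c l (k l).succ)‖ -
          Real.log ‖Z l θ - σ (P.c l 0)‖ := by
        linarith
      rw [h4, sub_div]
      refine lt_of_le_of_lt ?_ (hδle k)
      have h5 := abs_le.1 h1
      have h6 := abs_le.1 h2
      rw [abs_le]
      constructor <;> linarith [h5.1, h5.2, h6.1, h6.2]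
    · change ‖lw (Γ.fn (uw P lam k l : UR P.W (lam : K))) j θ - 2 * Real.pi * Complex.I *
          ((mrow q N (μ (some ⟨l, (k l).succ⟩)) j.succ - mrow q N (μ (some ⟨l, 0⟩)) j.succ : ℝ) :
            ℂ)‖ < δ k
      have h1 := (hest l (k l).succ θ).2 j
      have h2 := (hest l 0 θ).2 j
      have h3 := lw_mul (hgoodE l) (hgoodL l 0) j θ
      rw [hmul l] at h3
      have h4 : lw (Γ.fn (uw P lam k l : UR P.W (lam : K))) j θ =
          lw (fun θ => Z l θ - σ (P.c l (k l).succ)) j θ -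
          lw (fun θ => Z l θ - σ (P.c l 0)) j θ := by
        rw [eq_sub_iff_add_eq]
        exact h3.symm
      refine lt_of_le_of_lt ?_ (hδle k)
      rw [h4]
      have h5 : lw (fun θ => Z l θ - σ (P.c l (k l).succ)) j θ -
          lw (fun θ => Z l θ - σ (P.c l 0)) j θ - 2 * Real.pi * Complex.I *
          ((mrow q N (μ (some ⟨l, (k l).succ⟩)) j.succ - mrow q N (μ (some ⟨l, 0⟩)) j.succ : ℝ) :
            ℂ) =
          (lw (fun θ => Z l θ - σ (P.c l (k l).succ)) j θ - 2 * Real.pi * Complex.I *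
            mrow q N (μ (some ⟨l, (k l).succ⟩)) j.succ) -
          (lw (fun θ => Z l θ - σ (P.c l 0)) j θ - 2 * Real.pi * Complex.I *
            mrow q N (μ (some ⟨l, 0⟩)) j.succ) := by
        push_cast
        ring
      rw [h5]
      refine (norm_sub_le _ _).trans ?_
      linarith
  · rw [Torus.reg_symb]
    have hfn : ∀ l, Γ.fn (uz P.W (lam : K) l : UR P.W (lam : K)) = Z l := fun l =>
      funext fun θ => hΓz θ l
    have h1 := hclose' (fun l => Γ.fn (uz P.W (lam : K) l : UR P.W (lam : K))) t ht0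
      (fun l => Γ.good _) (fun l θ => by
        rw [hfn, Matrix.zero_apply, sub_zero]
        exact ((hUψ l).2 θ).1.trans_lt hδ02) (fun l j θ => by
        rw [hfn, Matrix.zero_apply, Complex.ofReal_zero, mul_zero, sub_zero]
        exact (((hUψ l).2 θ).2 j).trans_lt hδ02)
    rw [Matrix.det_zero, mul_zero, sub_zero] at h1
    exact h1

end corner

end Pool.Agent.L7h9.UP
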