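import Pool.Agent.L7h9.TS.Unr
set_option autoImplicit false

/-!
The hypersurfaces `W(z) = λ`, `W = G ∏_j ∏_i (z_j - c_{j,i})`: coordinate ring, classes, and the
classes are unramified if `λ` is a unit.
-/

namespace Pool.Agent.L7h9.UP

open Pool.Agent.TH826.MK

open Pool.Agent.N65.TL

open Pool.Agent.L7h9.SU

open Pool.Agent.L7h9.TS

section ring

variable {K : Type*} [Field K] {s : ℕ}

/-- The coordinate ring of the hypersurface `W(z) = λ`, `z_i ≠ 0`. -/
def UR (W : LP K (s + 1)) (lam : K) : Type _ := SRing (RingHom.id K) W lam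

noncomputable instance instUR (W : LP K (s + 1)) (lam : K) : CommRing (UR W lam) :=
  show CommRing (SRing (RingHom.id K) W lam) from inferInstance

variable (W : LP K (s + 1)) (lam : K)

/-- The constants. -/
noncomputable def ucst : K →+* UR W lam := sbase (RingHom.id K) W lam

/-- The units `z_i`. -/
noncomputable def uz (i : Fin (s + 1)) : (UR W lam)ˣ := sz (RingHom.id K) W lam i

theorem ueqn : lev (ucst W lam) (uz W lam) W = ucst W lam lam :=
  eqn_of_hom (RingHom.id (SRing (RingHom.id K) W lam))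

section pt

variable {S : Type*} [CommRing S] {W lam}

/-- A point of the hypersurface. -/
noncomputable def upt (c : K →+* S) (z : Fin (s + 1) → Sˣ) (h : lev c z W = c lam) :
    UR W lam →+* S := sev c z h

variable (c : K →+* S) (z : Fin (s + 1) → Sˣ) (h : lev c z W = c lam)

theorem upt_cst (a : K) : upt c z h (ucst W lam a) = c a := sev_sbase _ _ _ _

theorem upt_uz (i : Fin (s + 1)) : upt c z h (uz W lam i : UR W lam) = z i := sev_sz _ _ _ i

end pt

end ring

section cls

variable {K : Type*} [Field K] {s : ℕ} (P : Marked K s) (lam : Kˣ)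

theorem isUnit_ul (j : Fin (s + 1)) (i : Fin (P.r j + 1)) :
    IsUnit (lev (ucst P.W (lam : K)) (uz P.W lam) (lin j (P.c j i))) := by
  refine isUnit_of_dvd_unit (map_dvd _ (P.lin_dvd j i)) ?_
  rw [ueqn]
  exact lam.isUnit.map _

/-- The units `z_j - c_{j,i}`. -/
noncomputable def ul (j : Fin (s + 1)) (i : Fin (P.r j + 1)) : (UR P.W (lam : K))ˣ :=
  (isUnit_ul P lam j i).unit

/-- The units `w_j = (z_j - c_{j,k_j + 1}) / (z_j - c_{j,0})`. -/
noncomputable def uw (k : ∀ j, Fin (P.r j)) (j : Fin (s + 1)) : (UR P.W (lam : K))ˣ :=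
  ul P lam j (k j).succ / ul P lam j 0

theorem ul_coe (j : Fin (s + 1)) (i : Fin (P.r j + 1)) : (ul P lam j i : UR P.W (lam : K)) =
    uz P.W lam j - ucst P.W (lam : K) (P.c j i) := lev_lin _ _ _ _

theorem uw_mul (k : ∀ j, Fin (P.r j)) (j : Fin (s + 1)) : (uw P lam k j : UR P.W (lam : K)) *
    (uz P.W lam j - ucst P.W (lam : K) (P.c j 0)) =
      uz P.W lam j - ucst P.W (lam : K) (P.c j (k j).succ) := by
  rw [← ul_coe, ← ul_coe, ← Units.val_mul]
  unfold uw
  rw [div_mul_cancel]

/-- The index set of the classes. -/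
abbrev Iu : Type := Option (∀ j, Fin (P.r j))

/-- The classes `{z_0, ..., z_s}` and `{w_0, ..., w_s}` in `K_{s+1} ⊗ ℚ` of the coordinate ring. -/
noncomputable def ucls (k : Iu P) : KQ (UR P.W (lam : K)) (s + 1) :=
  k.elim (symb (uz P.W lam)) fun k => symb (uw P lam k)

end cls

section unr

open scoped WithZero

theorem uz_mem {K : Type*} [Field K] {s : ℕ} {W : LP K (s + 1)} (hWint : Interior W)
    (hWt : Tame W) {L : Type*} [Field L] (c : K →+* L) {z : Fin (s + 1) → Lˣ}
    (v : Valuation L ℤᵐ⁰) (h : v (lev c z W) = 1) : symb z ∈ unitPart v (s + 1) := by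
  classical
  by_cases hsmall : ∃ m0, W.coeff m0 ≠ 0 ∧ v (lev c z W) < v ((mon z m0 : Lˣ) : L)
  · obtain ⟨m0, hm0, hlt⟩ := hsmall
    exact mem_unitPart_of_tame c v z (p := id) Function.injective_id hWt hm0 hlt
  · push Not at hsmall
    choose o ho using fun j => exists_ord v (z j)
    have hvm : ∀ m : Fin (s + 1) → ℤ, v ((mon z m : Lˣ) : L) =
        WithZero.exp (∑ j, o j * m j) := by
      intro m
      unfold mon
      rw [Units.coe_prod, map_prod]
      have h2 : ∀ t : Finset (Fin (s + 1)), ∏ j ∈ t, v ((z j ^ m j : Lˣ) : L) =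
          WithZero.exp (∑ j ∈ t, o j * m j) := by
        intro t
        induction t using Finset.induction_on with
        | empty => simp
        | insert j t hj ih =>
          rw [Finset.prod_insert hj, Finset.sum_insert hj, WithZero.exp_add, ih,
            Units.val_zpow_eq_zpow_val, map_zpow₀, ho, ← WithZero.exp_zsmul, smul_eq_mul,
            mul_comm (m j)]
      exact h2 Finset.univ
    have ho0 : o = 0 := by
      by_contra hne
      obtain ⟨m0, hm0, hpos⟩ := hWint o hne
      have h3 := (hsmall m0 hm0).trans h.le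
      rw [hvm, ← WithZero.exp_zero, WithZero.exp_le_exp] at h3
      omega
    refine Submodule.subset_span ⟨z, fun i => ?_, rfl⟩
    rw [ho i, ho0, Pi.zero_apply, WithZero.exp_zero]

theorem ucls_unramified.{u, v} {K : Type u} [Field K] {s : ℕ} {P : Marked K s}
    (hP : P.Admissible) {lam : Kˣ} (h1 : IsIntegral ℤ (lam : K))
    (h2 : IsIntegral ℤ ((lam⁻¹ : Kˣ) : K)) {L : Type v} [Field L] (F : UR P.W (lam : K) →+* L)
    (k : Iu P) : KQ.map _ F (ucls P lam k) ∈ Unramified L (s + 1) := by
  unfold Unramified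
  simp only [Submodule.mem_iInf]
  intro v hv
  set c : K →+* L := F.comp (ucst P.W (lam : K)) with hc
  set z : Fin (s + 1) → Lˣ := fun i => Units.map (F : UR P.W (lam : K) →* L) (uz P.W lam i)
    with hz
  have heqn : lev c z P.W = c lam := by
    have h3 : F (lev (ucst P.W (lam : K)) (uz P.W lam) P.W) = lev c z P.W := lev_comp _ _ _ _
    rw [← h3, ueqn]
    rfl
  have hv1 : v (c lam) = 1 := by
    have h3 : v (c lam) ≤ 1 := val_le_one_of_integral v (map_isIntegral_int c h1)
    have h4 : v (c (lam⁻¹ : Kˣ)) ≤ 1 := val_le_one_of_integral v (map_isIntegral_int c h2)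
    have h5 : v (c lam) * v (c (lam⁻¹ : Kˣ)) = 1 := by
      rw [← map_mul, ← map_mul, Units.mul_inv, map_one, map_one]
    refine le_antisymm h3 ?_
    calc (1 : ℤᵐ⁰) = v (c lam) * v (c (lam⁻¹ : Kˣ)) := h5.symm
      _ ≤ v (c lam) * 1 := mul_le_mul' le_rfl h4
      _ = v (c lam) := mul_one _
  rcases k with _ | k
  · unfold ucls
    rw [Option.elim_none, KQ.map_symb]
    exact uz_mem hP.interior hP.tame c v (z := z) (by rw [heqn, hv1])
  · have hWu : IsUnit (lev c z P.W) := by
      rw [heqn]
      exact (lam.isUnit).map c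
    set φ : Bs P.W →+* L := bpt c z hWu with hφ
    have h3 := (bu_tempered.{u, v} hP k L φ v hv).1 (by rw [hφ, bpt_bV, heqn, hv1])
    rw [KQ.map_symb] at h3
    unfold ucls
    rw [Option.elim_some, KQ.map_symb]
    have e : (fun i => Units.map (F : UR P.W (lam : K) →* L) (uw P lam k i)) =
        fun i => Units.map (φ : Bs P.W →* L) (bu P k i) := by
      funext j
      refine Units.ext ?_
      show F (uw P lam k j : UR P.W (lam : K)) = φ (bu P k j : Bs P.W)
      have a1 := congrArg F (uw_mul P lam k j)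
      have a2 := congrArg φ (bu_mul P k j)
      rw [map_mul, map_sub, map_sub] at a1
      rw [map_mul, map_sub, map_sub, hφ, bpt_bx, bpt_bcst, bpt_bcst, ← hφ] at a2
      have a3 : (z j : L) - c (P.c j 0) ≠ 0 := by
        have a4 := ((ul P lam j 0).isUnit.map F).ne_zero
        rw [ul_coe, map_sub] at a4
        exact a4
      exact mul_right_cancel₀ a3 (a1.trans a2.symm)
    rw [e]
    exact h3

end unr

end Pool.Agent.L7h9.UP
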