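import Pool.Agent.L7h9.UP.Big
import Pool.Agent.L7h9.TS.Smo
set_option autoImplicit false

/-!
The hypersurfaces `W(z) = λ` are smooth for large and for small `λ`.
-/

namespace Pool.Agent.L7h9.UP

open Pool.Agent.N65.TL

open Pool.Agent.L7h9.LT

theorem exists_smoothU {s : ℕ} {K : Type*} [Field K] (σ : K →+* ℂ) (W : LP K (s + 1)) :
    ∃ C : ℝ, 1 < C ∧ ∀ lam : Kˣ, (C ≤ ‖σ lam‖ ∨ C ≤ ‖σ (lam⁻¹ : Kˣ)‖) →
      ∀ z : Fin (s + 1) → ℂ, (∀ i, z i ≠ 0) → lval σ W z = σ lam → ∃ i, lder σ W z i ≠ 0 := by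
  obtain ⟨B, ε, hB, hε, h⟩ := Pool.Agent.L7h9.TS.exists_crit_bounds σ W
  refine ⟨2 + B + 1 / ε, by
    have h2 : 0 < 1 / ε := by positivity
    linarith, fun lam hlam z hz heq => ?_⟩
  by_contra hcon
  push Not at hcon
  have hl0 : σ lam ≠ 0 := by
    rw [map_ne_zero]
    exact lam.ne_zero
  obtain ⟨a1, a2⟩ := h z hz (by rw [heq]; exact hl0) hcon
  rw [heq] at a1 a2
  have c2 : 0 < 1 / ε := by positivity
  rcases hlam with hlam | hlam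
  · linarith
  · have h5 : ‖σ (lam⁻¹ : Kˣ)‖ * ‖σ lam‖ = 1 := by
      rw [← norm_mul, ← map_mul, Units.inv_mul, map_one, norm_one]
    have h4 : (1 / ε + 2) * ε ≤ ‖σ (lam⁻¹ : Kˣ)‖ * ‖σ lam‖ :=
      mul_le_mul (by linarith) a1 hε.le (norm_nonneg _)
    rw [add_mul, div_mul_cancel₀ _ hε.ne', h5] at h4
    linarith

end Pool.Agent.L7h9.UP
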